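import Mathlib

namespace Pool.Agent.Lib.MP_fc15dd_lc

/-- A rule `(A → x, F)`: left-hand side, right-hand side over `V = N ⊕ T`, and a finite set of
forbidden strings over `N`. -/
abbrev Rule (N T : Type) := N × List (N ⊕ T) × Finset (List N)

/-- A generalized one-sided forbidding grammar: left rules, right rules, start symbol. -/
structure Grammar (N T : Type) where
  PL : Finset (Rule N T)
  PR : Finset (Rule N T)
  S : N

variable {N T : Type}

/-- no string of `F` is a substring of `u` -/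
def Avoids (F : Finset (List N)) (u : List (N ⊕ T)) : Prop :=
  ∀ f ∈ F, ¬ (f.map Sum.inl <:+: u)

/-- one derivation step -/
def Grammar.Step (G : Grammar N T) (a b : List (N ⊕ T)) : Prop :=
  ∃ (u v : List (N ⊕ T)) (A : N) (x : List (N ⊕ T)) (F : Finset (List N)),
    a = u ++ Sum.inl A :: v ∧ b = u ++ x ++ v ∧
    (((A, x, F) ∈ G.PL ∧ Avoids F u) ∨ ((A, x, F) ∈ G.PR ∧ Avoids F v))

/-- the generated language -/
def Grammar.lang (G : Grammar N T) : Set (List T) :=
  {w | Relation.ReflTransGen G.Step [Sum.inl G.S] (w.map Sum.inr)}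

/-- degree `(m, n)` -/
def Grammar.Degree (G : Grammar N T) (m n : ℕ) : Prop :=
  (∀ r ∈ G.PL, ∀ f ∈ r.2.2, f.length ≤ m) ∧ (∀ r ∈ G.PR, ∀ f ∈ r.2.2, f.length ≤ n)

/-- number of rules of `PL ∪ PR` with nonempty forbidding context -/
noncomputable def Grammar.numForb (G : Grammar N T) : ℕ :=
  {r : Rule N T | (r ∈ G.PL ∨ r ∈ G.PR) ∧ r.2.2 ≠ ∅}.ncard

end Pool.Agent.Lib.MP_fc15dd_lc
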