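import Pool.Agent.Lib.MP_fc15dd_lc.Sound

namespace Pool.Agent.Lib.MP_fc15dd_lc

open Pool.Agent.Lib.helper83 NT

variable {T : Type}

def emb (q : NR) : Rule NT T := (q.1, q.2.1.map Sum.inl, q.2.2)

def listL : List NR :=
  [(r false, [rm], {[r false], [r true], [rm], [P], [E, c], [l (!false), c], [lm, c]}),
   (r true, [rm], {[r false], [r true], [rm], [P], [E, c], [l (!true), c], [lm, c]}),
   (z false, [z true], {[P], [c, r false], [c, r true], [c, E]}),
   (rm, [], {[E, c], [l false, c], [l true, c]}),
   (z false, [], {[l false], [l true], [r false], [r true], [P]})]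

def listR : List NR :=
  [(l false, [lm], {[l false], [l true], [lm], [z false], [S]}),
   (l true, [lm], {[l false], [l true], [lm], [z false], [S]}),
   (lm, [], {[rm], [z true]}),
   (E, [], {[S], [z false], [z true]}),
   (c, [], {[z false], [z true]})]

lemma mem_listL {q : NR} : q ∈ listL ↔ QL q := by
  constructor
  · intro h
    simp only [listL, List.mem_cons, List.not_mem_nil, or_false] at h
    rcases h with rfl | rfl | rfl | rfl | rfl
    exacts [.l1 false, .l1 true, .l2, .l4, .l7]
  · intro h
    cases h with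
    | l1 k => cases k <;> simp [listL]
    | l2 => simp [listL]
    | l4 => simp [listL]
    | l7 => simp [listL]

lemma mem_listR {q : NR} : q ∈ listR ↔ QR q := by
  constructor
  · intro h
    simp only [listR, List.mem_cons, List.not_mem_nil, or_false] at h
    rcases h with rfl | rfl | rfl | rfl | rfl
    exacts [.r3 false, .r3 true, .r5, .r8, .r9]
  · intro h
    cases h with
    | r3 k => cases k <;> simp [listR]
    | r5 => simp [listR]
    | r8 => simp [listR]
    | r9 => simp [listR]

variable (D : Set (List Bool × List Bool)) (init pre post : List Bool) (ψ : T → List Bool)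

def setL : Set (Rule NT T) :=
  emb '' {q | QL q} ∪ (fun q : NT × List NT => emb (q.1, q.2, ∅)) '' {q | QF D init pre post q} ∪
    Set.range fun a => (S, (lft (ψ a) ++ [S]).map Sum.inl ++ [Sum.inr a], ∅)

def setR : Set (Rule NT T) := emb '' {q | QR q}

lemma setR_finite : (setR : Set (Rule NT T)).Finite :=
  ((List.finite_toSet listR).subset fun _ h => mem_listR.mpr h).image _

lemma setL_finite [Finite T] (hD : D.Finite) : (setL D init pre post ψ).Finite := by
  refine Set.Finite.union (Set.Finite.union ?_ (Set.Finite.image _ ?_)) (Set.finite_range _)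
  · exact ((List.finite_toSet listL).subset fun _ h => mem_listL.mpr h).image _
  · refine ((List.finite_toSet [(S0, E :: lft post ++ [S]), (S, lft pre ++ [P, E, z false]),
      (P, c :: rgt init), (z true, [z false])]).union
      (hD.image fun d => (P, lft d.1 ++ P :: rgt d.2))).subset ?_
    intro q hq
    cases hq with
    | p h => exact Or.inr ⟨_, h, rfl⟩
    | s0 => simp
    | s => simp
    | pc => simp
    | zz => simp

noncomputable def gram [Finite T] (hD : D.Finite) : Grammar NT T :=
  ⟨(setL_finite D init pre post ψ hD).toFinset, setR_finite.toFinset, S0⟩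

variable {D init pre post ψ} [Finite T] (hD : D.Finite)

lemma gram_degree : (gram D init pre post ψ hD).Degree 2 1 := by
  constructor
  · intro q hq f hf
    simp only [gram, Set.Finite.mem_toFinset] at hq
    rcases hq with (⟨q, hq, rfl⟩ | ⟨q, hq, rfl⟩) | ⟨a, rfl⟩
    · cases hq <;> simp only [emb, Finset.mem_insert, Finset.mem_singleton] at hf <;>
        rcases hf with rfl | rfl | rfl | hf <;> (try simp) <;>
        rcases hf with rfl | rfl | hf <;> (try simp) <;>
        rcases hf with rfl | rfl <;> simp
    · simp [emb] at hf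
    · simp at hf
  · intro q hq f hf
    simp only [gram, Set.Finite.mem_toFinset] at hq
    obtain ⟨q, hq, rfl⟩ := hq
    cases hq <;> simp only [emb, Finset.mem_insert, Finset.mem_singleton] at hf <;>
      rcases hf with rfl | rfl | hf <;> (try simp) <;>
      rcases hf with rfl | rfl | rfl <;> simp

lemma gram_numForb : (gram D init pre post ψ hD).numForb ≤ 10 := by
  classical
  have : {q : Rule NT T | (q ∈ (gram D init pre post ψ hD).PL ∨ q ∈ (gram D init pre post ψ hD).PR)
      ∧ q.2.2 ≠ ∅} ⊆ ((((listL ++ listR).map emb).toFinset : Finset (Rule NT T)) : Set (Rule NT T)) := by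
    rintro q ⟨hq, hF⟩
    simp only [gram, Set.Finite.mem_toFinset] at hq
    simp only [List.coe_toFinset, List.mem_map, List.mem_append, Set.mem_ofPred_eq]
    rcases hq with ((⟨q, hq, rfl⟩ | ⟨q, hq, rfl⟩) | ⟨a, rfl⟩) | ⟨q, hq, rfl⟩
    · exact ⟨q, Or.inl (mem_listL.mpr hq), rfl⟩
    · simp [emb] at hF
    · simp at hF
    · exact ⟨q, Or.inr (mem_listR.mpr hq), rfl⟩
  refine (Set.ncard_le_ncard this (Finset.finite_toSet _)).trans ?_
  rw [Set.ncard_coe_finset]
  exact (List.toFinset_card_le _).trans (by simp [listL, listR])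

omit [Finite T] in
lemma split_form {ns : List NT} {w : List T} {u v : List (NT ⊕ T)} {A : NT}
    (h : ns.map Sum.inl ++ w.map Sum.inr = u ++ Sum.inl A :: v) :
    ∃ u' v', ns = u' ++ A :: v' ∧ u = u'.map Sum.inl ∧ v = v'.map Sum.inl ++ w.map Sum.inr := by
  induction ns generalizing u with
  | nil =>
    have : Sum.inl A ∈ w.map (Sum.inr : T → NT ⊕ T) := by
      have h' : w.map (Sum.inr : T → NT ⊕ T) = u ++ Sum.inl A :: v := by simpa using h
      rw [h']; simp
    simp at this
  | cons n ns ih =>
    cases u with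
    | nil =>
      simp only [List.map_cons, List.cons_append, List.nil_append, List.cons.injEq,
        Sum.inl.injEq] at h
      exact ⟨[], ns, by simp [h.1], rfl, h.2.symm⟩
    | cons a u =>
      simp only [List.map_cons, List.cons_append, List.cons.injEq] at h
      obtain ⟨u', v', h1, h2, h3⟩ := ih h.2
      exact ⟨n :: u', v', by simp [h1], by simp [h2, h.1], h3⟩

omit [Finite T] in
lemma infix_inl {f u : List NT} {w : List T}
    (h : f.map (Sum.inl : NT → NT ⊕ T) <:+: u.map Sum.inl ++ w.map Sum.inr) : f <:+: u := by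
  have := h.filterMap Sum.getLeft?
  simpa [List.filterMap_append, List.filterMap_map, Function.comp_def] using this

omit [Finite T] in
lemma avoids_iff {F : Finset (List NT)} {u : List NT} {w : List T} :
    Avoids F (u.map Sum.inl ++ w.map Sum.inr) ↔ Av F u :=
  ⟨fun h f hf hi => h f hf ((hi.map _).trans (List.prefix_append _ _).isInfix),
    fun h f hf hi => h f hf (infix_inl hi)⟩

omit [Finite T] in
lemma avoids_iff' {F : Finset (List NT)} {u : List NT} :
    Avoids F (u.map (Sum.inl : NT → NT ⊕ T)) ↔ Av F u := by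
  simpa using avoids_iff (F := F) (u := u) (w := ([] : List T))

lemma gram_sound {L : Set (List T)}
    (hL : ∀ w, Sol D init (pre ++ w.flatMap ψ ++ post) [] → w ∈ L) :
    (gram D init pre post ψ hD).lang ⊆ L := by
  intro w hw
  have key : ∀ b, Relation.ReflTransGen (gram D init pre post ψ hD).Step [Sum.inl S0] b →
      ∃ ns w, b = ns.map Sum.inl ++ w.map Sum.inr ∧ I D init post ψ L ns w := by
    intro b hb
    induction hb with
    | refl => exact ⟨[S0], [], rfl, .a⟩
    | tail _ hs ih =>
      obtain ⟨ns, w, rfl, hI⟩ := ih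
      obtain ⟨u, v, A, x, F, h1, rfl, h2⟩ := hs
      obtain ⟨u, v, rfl, rfl, rfl⟩ := split_form h1
      simp only [gram, Set.Finite.mem_toFinset] at h2
      rcases h2 with ⟨(⟨⟨A', x', F'⟩, hq, he⟩ | ⟨⟨A', x'⟩, hq, he⟩) | ⟨a, he⟩, hF⟩ |
        ⟨⟨⟨A', x', F'⟩, hq, he⟩, hF⟩
      · cases he
        exact ⟨_, w, by simp, inv_left hq (avoids_iff'.mp hF) hI⟩
      · cases he
        exact ⟨_, w, by simp, inv_free hL hq hI⟩
      · cases he
        obtain ⟨rfl, h⟩ := inv_term a hI
        exact ⟨_, _, by simp, h⟩
      · cases he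
        exact ⟨_, w, by simp, inv_right hq (avoids_iff.mp hF) hI⟩
  obtain ⟨ns, w', h1, h2⟩ := key _ hw
  cases ns with
  | cons n ns =>
    have : Sum.inl n ∈ w.map (Sum.inr : T → NT ⊕ T) := by rw [h1]; simp
    simp at this
  | nil =>
    have : w = w' := (List.map_injective_iff.mpr Sum.inr_injective) (by simpa using h1)
    exact this ▸ inv_nil h2

/-- derivations on forms consisting of nonterminals followed by terminals -/
def Der (ns ms : List NT) (w : List T) : Prop :=
  Relation.ReflTransGen (gram D init pre post ψ hD).Step (ns.map Sum.inl ++ w.map Sum.inr)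
    (ms.map Sum.inl ++ w.map Sum.inr)

lemma Der.trans {a b e : List NT} {w : List T} (h1 : Der (init := init) (pre := pre)
    (post := post) (ψ := ψ) hD a b w) (h2 : Der (init := init) (pre := pre)
    (post := post) (ψ := ψ) hD b e w) : Der (init := init) (pre := pre)
    (post := post) (ψ := ψ) hD a e w := Relation.ReflTransGen.trans h1 h2

lemma der_left {A x F} (hq : QL (A, x, F)) (u v : List NT) (w : List T) (hF : Av F u) {a b}
    (ha : a = u ++ A :: v) (hb : b = u ++ x ++ v) :
    Der (init := init) (pre := pre) (post := post) (ψ := ψ) hD a b w := by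
  subst ha hb
  refine .single ⟨u.map .inl, v.map .inl ++ w.map .inr, A, x.map .inl, F, by simp, by simp,
    Or.inl ⟨?_, avoids_iff'.mpr hF⟩⟩
  simp only [gram, Set.Finite.mem_toFinset]
  exact Or.inl (Or.inl ⟨_, hq, rfl⟩)

lemma der_right {A x F} (hq : QR (A, x, F)) (u v : List NT) (w : List T) (hF : Av F v) {a b}
    (ha : a = u ++ A :: v) (hb : b = u ++ x ++ v) :
    Der (init := init) (pre := pre) (post := post) (ψ := ψ) hD a b w := by
  subst ha hb
  refine .single ⟨u.map .inl, v.map .inl ++ w.map .inr, A, x.map .inl, F, by simp, by simp,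
    Or.inr ⟨?_, avoids_iff.mpr hF⟩⟩
  simp only [gram, Set.Finite.mem_toFinset]
  exact ⟨_, hq, rfl⟩

lemma der_free {A x} (hq : QF D init pre post (A, x)) (u v : List NT) (w : List T) {a b}
    (ha : a = u ++ A :: v) (hb : b = u ++ x ++ v) :
    Der (init := init) (pre := pre) (post := post) (ψ := ψ) hD a b w := by
  subst ha hb
  refine .single ⟨u.map .inl, v.map .inl ++ w.map .inr, A, x.map .inl, ∅, by simp, by simp,
    Or.inl ⟨?_, by simp [Avoids]⟩⟩
  simp only [gram, Set.Finite.mem_toFinset]
  exact Or.inl (Or.inr ⟨_, hq, rfl⟩)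

attribute [local simp] List.singleton_infix_iff

/-- digram with a uniquely occurring second letter -/
lemma av_two_left {a b m : NT} {p q : List NT} (h1 : m ∉ p) (h2 : m ∉ q) (h3 : b ≠ m)
    (h4 : a ≠ b) : ¬ [a, m] <:+: p ++ b :: m :: q := by
  rintro ⟨s, t, h⟩
  have h' : (s ++ [a]) ++ m :: t = (p ++ [b]) ++ m :: q := by simpa using h
  have := (split_unique (by simpa [h1] using h3.symm) h2 h').1
  exact h4 (by simpa using (List.append_inj' this rfl).2)

lemma av_two_right {a b m : NT} {p q : List NT} (h1 : m ∉ p) (h2 : m ∉ q) (h3 : b ≠ m)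
    (h4 : a ≠ b) : ¬ [m, a] <:+: p ++ m :: b :: q := by
  rintro ⟨s, t, h⟩
  have h' : s ++ m :: a :: t = p ++ m :: b :: q := by simpa using h
  have := (split_unique h1 (by simpa [h2] using h3.symm) h').2
  exact h4 (by simpa using (List.cons.inj this).1)

lemma der_cancel (w : List T) : ∀ x : List Bool,
    Der (init := init) (pre := pre) (post := post) (ψ := ψ) hD (sh x false false x false) [] w
  | [] => by
    refine (der_left hD .l7 [E, c, E] [] w (by simp [Av]) (by simp [sh, opt]) rfl).trans hD ?_
    refine (der_right hD .r8 [] [c, E] w (by simp [Av]) rfl rfl).trans hD ?_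
    refine (der_right hD .r9 [] [E] w (by simp [Av]) rfl rfl).trans hD ?_
    exact der_right hD .r8 [] [] w (by simp [Av]) rfl rfl
  | k :: x => by
    have e1 : ∀ a, a ≠ l k → ¬ [a, c] <:+: (E :: lft x) ++ l k :: c :: [] := fun a ha =>
      av_two_left (by simp) (by simp) (by simp) ha
    refine (der_left hD (.l1 k) ((E :: lft x) ++ l k :: c :: []) (rgt x ++ [E, z false]) w ?_
      (by simp [sh, opt]) rfl).trans hD ?_
    · simp only [Av, Finset.mem_insert, Finset.mem_singleton]
      rintro f (rfl | rfl | rfl | rfl | rfl | rfl | rfl)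
      · simp
      · simp
      · simp
      · simp
      · exact e1 _ (by simp)
      · exact e1 _ (by simp)
      · exact e1 _ (by simp)
    have e2 : ∀ a, a ≠ rm → ¬ [c, a] <:+: (E :: lft x ++ [l k]) ++ c :: rm :: (rgt x ++ [E]) :=
      fun a ha => av_two_right (by simp) (by simp) (by simp) ha
    refine (der_left hD .l2 ((E :: lft x ++ [l k]) ++ c :: rm :: (rgt x ++ [E])) [] w ?_
      (by simp) rfl).trans hD ?_
    · simp only [Av, Finset.mem_insert, Finset.mem_singleton]
      rintro f (rfl | rfl | rfl | rfl)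
      · simp
      · exact e2 _ (by simp)
      · exact e2 _ (by simp)
      · exact e2 _ (by simp)
    refine (der_right hD (.r3 k) (E :: lft x) (c :: rm :: rgt x ++ [E, z true]) w
      (by simp [Av]) (by simp) rfl).trans hD ?_
    have e3 : ∀ a, a ≠ lm → ¬ [a, c] <:+: (E :: lft x) ++ lm :: c :: [] := fun a ha =>
      av_two_left (by simp) (by simp) (by simp) ha
    refine (der_left hD .l4 ((E :: lft x) ++ lm :: c :: []) (rgt x ++ [E, z true]) w ?_
      (by simp) rfl).trans hD ?_
    · simp only [Av, Finset.mem_insert, Finset.mem_singleton]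
      rintro f (rfl | rfl | rfl)
      · exact e3 _ (by simp)
      · exact e3 _ (by simp)
      · exact e3 _ (by simp)
    refine (der_free hD .zz ((E :: lft x) ++ lm :: c :: rgt x ++ [E]) [] w
      (by simp) rfl).trans hD ?_
    refine (der_right hD .r5 (E :: lft x) (c :: rgt x ++ [E, z false]) w
      (by simp [Av]) (by simp) rfl).trans hD ?_
    simpa [sh, opt] using der_cancel w x

lemma der_pcp (w : List T) (s : List (List Bool × List Bool)) : (∀ d ∈ s, d ∈ D) →
    ∀ x y, s.flatMap Prod.fst ++ x = init ++ s.flatMap Prod.snd ++ y →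
    Der (init := init) (pre := pre) (post := post) (ψ := ψ) hD
      (E :: lft x ++ P :: rgt y ++ [E, z false]) [] w := by
  induction s using List.reverseRecOn with
  | nil =>
    intro _ x y h
    obtain rfl : x = init ++ y := by simpa using h
    refine (der_free hD .pc (E :: lft (init ++ y)) (rgt y ++ [E, z false]) w
      (by simp) rfl).trans hD ?_
    simpa [sh, opt] using der_cancel (init := init) (pre := pre) (post := post) (ψ := ψ) hD w
      (init ++ y)
  | append_singleton s d ih =>
    intro hs x y h
    refine (der_free hD (.p (u := d.1) (v := d.2) (hs d (by simp))) (E :: lft x)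
      (rgt y ++ [E, z false]) w (by simp) rfl).trans hD ?_
    have := ih (fun c hc => hs c (by simp [hc])) (d.1 ++ x) (d.2 ++ y) (by simpa using h)
    simpa using this

lemma gram_complete (w : List T) (h : Sol D init (pre ++ w.flatMap ψ ++ post) []) :
    w ∈ (gram D init pre post ψ hD).lang := by
  have h1 : ∀ w : List T, Relation.ReflTransGen (gram D init pre post ψ hD).Step [Sum.inl S0]
      ((E :: lft (w.flatMap ψ ++ post) ++ [S]).map Sum.inl ++ w.map Sum.inr) := by
    intro w
    induction w with
    | nil =>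
      have := der_free (ψ := ψ) hD (.s0 (init := init) (pre := pre) (post := post)) [] [] [] rfl rfl
      simpa [Der] using this
    | cons a w ih =>
      refine ih.tail ⟨(E :: lft (w.flatMap ψ ++ post)).map .inl, w.map .inr, S,
        (lft (ψ a) ++ [S]).map Sum.inl ++ [Sum.inr a], ∅, by simp, by simp,
        Or.inl ⟨?_, by simp [Avoids]⟩⟩
      simp only [gram, Set.Finite.mem_toFinset]
      exact Or.inr ⟨a, rfl⟩
  obtain ⟨s, hs, he⟩ := h
  have h2 := der_pcp (pre := pre) (post := post) (ψ := ψ) hD w s hs _ _ he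
  have h3 := (der_free (ψ := ψ) hD (.s (init := init) (pre := pre) (post := post))
    (E :: lft (w.flatMap ψ ++ post)) [] w rfl (by simp)).trans hD h2
  exact (h1 w).trans (by simpa [Der] using h3)

theorem exists_21 {T : Type} [Finite T] [Primcodable T] (L : Set (List T))
    (hL : REPred (· ∈ L)) : ∃ G : Grammar NT T, G.Degree 2 1 ∧ G.numForb ≤ 10 ∧ G.lang = L := by
  obtain ⟨D, init, pre, post, ψ, hD, h⟩ := re_to_epcp _ hL
  exact ⟨gram D init pre post ψ hD, gram_degree hD, gram_numForb hD,
    (gram_sound hD fun w => (h w).mpr).antisymm fun w hw => gram_complete hD w ((h w).mp hw)⟩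

section rev

variable {N T : Type}

def revRule [DecidableEq N] (q : Rule N T) : Rule N T :=
  (q.1, q.2.1.reverse, q.2.2.image List.reverse)

open Classical in
noncomputable def Grammar.rev (G : Grammar N T) : Grammar N T :=
  ⟨G.PR.image revRule, G.PL.image revRule, G.S⟩

open Classical in
lemma avoids_rev {F : Finset (List N)} {u : List (N ⊕ T)} :
    Avoids (F.image List.reverse) u.reverse ↔ Avoids F u := by
  simp only [Avoids, Finset.mem_image, forall_exists_index, and_imp, forall_apply_eq_imp_iff₂,
    List.map_reverse, List.reverse_infix]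

lemma rev_step (G : Grammar N T) (a b : List (N ⊕ T)) :
    G.rev.Step a.reverse b.reverse ↔ G.Step a b := by
  classical
  constructor
  · rintro ⟨u, v, A, x, F, h1, h2, h3⟩
    have h1' : a = v.reverse ++ Sum.inl A :: u.reverse := by
      simpa using congrArg List.reverse h1
    have h2' : b = v.reverse ++ x.reverse ++ u.reverse := by
      simpa using congrArg List.reverse h2
    simp only [Grammar.rev, Finset.mem_image] at h3
    rcases h3 with ⟨⟨⟨A', x', F'⟩, hq, he⟩, hF⟩ | ⟨⟨⟨A', x', F'⟩, hq, he⟩, hF⟩
    · cases he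
      refine ⟨_, _, _, _, F', h1', h2', Or.inr ⟨by simpa using hq, avoids_rev.mp ?_⟩⟩
      rw [List.reverse_reverse]; exact hF
    · cases he
      refine ⟨_, _, _, _, F', h1', h2', Or.inl ⟨by simpa using hq, avoids_rev.mp ?_⟩⟩
      rw [List.reverse_reverse]; exact hF
  · rintro ⟨u, v, A, x, F, rfl, rfl, h3⟩
    refine ⟨v.reverse, u.reverse, A, x.reverse, F.image List.reverse, by simp, by simp, ?_⟩
    simp only [Grammar.rev, Finset.mem_image]
    rcases h3 with ⟨hq, hF⟩ | ⟨hq, hF⟩
    · exact Or.inr ⟨⟨_, hq, rfl⟩, avoids_rev.mpr hF⟩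
    · exact Or.inl ⟨⟨_, hq, rfl⟩, avoids_rev.mpr hF⟩

lemma rev_lang (G : Grammar N T) (w : List T) : w ∈ G.rev.lang ↔ w.reverse ∈ G.lang := by
  constructor
  · intro h
    have := Relation.ReflTransGen.lift (p := G.Step) List.reverse
      (fun a b hab => (rev_step G _ _).mp (by simpa using hab)) _ _ h
    simpa [Grammar.lang, Grammar.rev, Function.onFun] using this
  · intro h
    have := Relation.ReflTransGen.lift (p := G.rev.Step) List.reverse
      (fun a b hab => (rev_step G _ _).mpr hab) _ _ h
    simpa [Grammar.lang, Grammar.rev, Function.onFun] using this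

lemma rev_degree (G : Grammar N T) {m n : ℕ} (h : G.Degree m n) : G.rev.Degree n m := by
  classical
  constructor <;> intro q hq f hf <;> simp only [Grammar.rev, Finset.mem_image] at hq <;>
    obtain ⟨q, hq, rfl⟩ := hq <;> simp only [revRule, Finset.mem_image] at hf <;>
    obtain ⟨f, hf, rfl⟩ := hf <;> rw [List.length_reverse]
  exacts [h.2 q hq f hf, h.1 q hq f hf]

lemma rev_numForb (G : Grammar N T) : G.rev.numForb ≤ G.numForb := by
  classical
  have hfin : {q : Rule N T | (q ∈ G.PL ∨ q ∈ G.PR) ∧ q.2.2 ≠ ∅}.Finite :=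
    (G.PL.finite_toSet.union G.PR.finite_toSet).subset fun q hq => hq.1
  refine le_trans (Set.ncard_le_ncard ?_ (hfin.image revRule)) (Set.ncard_image_le hfin)
  rintro q ⟨hq, hF⟩
  simp only [Grammar.rev, Finset.mem_image] at hq
  rcases hq with ⟨q, hq, rfl⟩ | ⟨q, hq, rfl⟩
  · exact ⟨q, ⟨Or.inr hq, by simpa [revRule] using hF⟩, rfl⟩
  · exact ⟨q, ⟨Or.inl hq, by simpa [revRule] using hF⟩, rfl⟩

end rev

theorem exists_12 {T : Type} [Finite T] [Primcodable T] (L : Set (List T))
    (hL : REPred (· ∈ L)) : ∃ G : Grammar NT T, G.Degree 1 2 ∧ G.numForb ≤ 10 ∧ G.lang = L := by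
  obtain ⟨G, h1, h2, h3⟩ := exists_21 {w : List T | w.reverse ∈ L}
    (Partrec.comp hL Primrec.list_reverse.to_comp)
  refine ⟨G.rev, rev_degree G h1, (rev_numForb G).trans h2, ?_⟩
  ext w
  rw [rev_lang, h3]; simp

lemma card_NT : Fintype.card NT = 13 := by decide

end Pool.Agent.Lib.MP_fc15dd_lc
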