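import Pool.Agent.Lib.MP_fc15dd_lc.Defs
import Pool.Agent.Lib.helper83.EPCP

namespace Pool.Agent.Lib.MP_fc15dd_lc

open Pool.Agent.Lib.helper83

inductive NT
  | S0 | S | P | E | c
  | l (k : Bool)
  | r (k : Bool)
  | lm | rm
  | z (k : Bool)
  deriving DecidableEq, Fintype

open NT

section lists

variable {X : Type}

lemma first_class (C : X → Prop) : ∀ {p p' q q' : List X} {a a' : X}, (∀ x ∈ p, ¬ C x) →
    (∀ x ∈ p', ¬ C x) → C a → C a' → p ++ a :: q = p' ++ a' :: q' → p = p' ∧ a = a' ∧ q = q'
  | [], [], q, q', a, a', _, _, _, _, h => by simpa using h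
  | [], b :: p', q, q', a, a', _, h1, ha, _, h => by
    simp only [List.nil_append, List.cons_append, List.cons.injEq] at h
    exact absurd (h.1 ▸ ha) (h1 b (by simp))
  | b :: p, [], q, q', a, a', h1, _, _, ha, h => by
    simp only [List.nil_append, List.cons_append, List.cons.injEq] at h
    exact absurd (h.1 ▸ ha) (h1 b (by simp))
  | b :: p, b' :: p', q, q', a, a', h1, h2, ha, ha', h => by
    simp only [List.cons_append, List.cons.injEq] at h
    have := first_class C (fun x hx => h1 x (List.mem_cons_of_mem _ hx))
      (fun x hx => h2 x (List.mem_cons_of_mem _ hx)) ha ha' h.2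
    exact ⟨by rw [h.1, this.1], this.2⟩

lemma last_class (C : X → Prop) {p p' q q' : List X} {a a' : X} (h1 : ∀ x ∈ q, ¬ C x)
    (h2 : ∀ x ∈ q', ¬ C x) (ha : C a) (ha' : C a') (h : p ++ a :: q = p' ++ a' :: q') :
    p = p' ∧ a = a' ∧ q = q' := by
  have h' := congrArg List.reverse h
  simp only [List.reverse_append, List.reverse_cons, List.append_assoc,
    List.singleton_append] at h'
  have := first_class C (by simpa using h1) (by simpa using h2) ha ha' h'
  exact ⟨List.reverse_injective this.2.2, this.2.1, List.reverse_injective this.1⟩

lemma mem_left : ∀ {u v p q : List X} {a m : X}, u ++ a :: v = p ++ m :: q → a ∉ p → a ≠ m → m ∈ u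
  | [], v, [], q, a, m, h, _, h2 => by simp at h; exact absurd h.1 h2
  | [], v, b :: p, q, a, m, h, h1, _ => by simp at h; exact absurd (by simp [h.1]) h1
  | b :: u, v, [], q, a, m, h, _, _ => by simp at h; simp [h.1]
  | b :: u, v, b' :: p, q, a, m, h, h1, h2 => by
    simp only [List.cons_append, List.cons.injEq] at h
    exact List.mem_cons_of_mem _ (mem_left h.2 (fun h => h1 (List.mem_cons_of_mem _ h)) h2)

lemma mem_right {u v p q : List X} {a m : X} (h : u ++ a :: v = p ++ m :: q) (h1 : a ∉ q)
    (h2 : a ≠ m) : m ∈ v := by
  have h' := congrArg List.reverse h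
  simp only [List.reverse_append, List.reverse_cons, List.append_assoc,
    List.singleton_append] at h'
  simpa using mem_left h' (by simpa using h1) h2

end lists

def lft (x : List Bool) : List NT := x.reverse.map l
def rgt (y : List Bool) : List NT := y.map r

@[simp] lemma mem_lft {x : List Bool} {n : NT} : n ∈ lft x ↔ ∃ k ∈ x, l k = n := by simp [lft]
@[simp] lemma mem_rgt {x : List Bool} {n : NT} : n ∈ rgt x ↔ ∃ k ∈ x, r k = n := by simp [rgt]
@[simp] lemma lft_nil : lft [] = [] := rfl
@[simp] lemma rgt_nil : rgt [] = [] := rfl
@[simp] lemma lft_cons (k x) : lft (k :: x) = lft x ++ [l k] := by simp [lft]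
@[simp] lemma rgt_cons (k x) : rgt (k :: x) = r k :: rgt x := by simp [rgt]
@[simp] lemma lft_append (x y) : lft (x ++ y) = lft y ++ lft x := by simp [lft]
@[simp] lemma rgt_append (x y) : rgt (x ++ y) = rgt x ++ rgt y := by simp [rgt]

abbrev NR := NT × List NT × Finset (List NT)

/-- left forbidding rules -/
inductive QL : NR → Prop
  | l1 (k) : QL (r k, [rm], {[r false], [r true], [rm], [P], [E, c], [l (!k), c], [lm, c]})
  | l2 : QL (z false, [z true], {[P], [c, r false], [c, r true], [c, E]})
  | l4 : QL (rm, [], {[E, c], [l false, c], [l true, c]})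
  | l7 : QL (z false, [], {[l false], [l true], [r false], [r true], [P]})

/-- right forbidding rules -/
inductive QR : NR → Prop
  | r3 (k) : QR (l k, [lm], {[l false], [l true], [lm], [z false], [S]})
  | r5 : QR (lm, [], {[rm], [z true]})
  | r8 : QR (E, [], {[S], [z false], [z true]})
  | r9 : QR (c, [], {[z false], [z true]})

variable (D : Set (List Bool × List Bool)) (init pre post : List Bool)

/-- free rules with nonterminal right-hand sides -/
inductive QF : NT × List NT → Prop
  | s0 : QF (S0, E :: lft post ++ [S])
  | s : QF (S, lft pre ++ [P, E, z false])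
  | p {u v} : (u, v) ∈ D → QF (P, lft u ++ P :: rgt v)
  | pc : QF (P, c :: rgt init)
  | zz : QF (z true, [z false])

def opt (b : Bool) (n : NT) : List NT := bif b then [n] else []

def sh (x : List Bool) (b1 b2 : Bool) (y : List Bool) (bz : Bool) : List NT :=
  E :: lft x ++ opt b1 lm ++ c :: opt b2 rm ++ rgt y ++ [E, z bz]

variable {T : Type} (ψ : T → List Bool) (L : Set (List T))

inductive I : List NT → List T → Prop
  | a : I [S0] []
  | b (w) : I (E :: lft (w.flatMap ψ ++ post) ++ [S]) w
  | c (x y w) : (Sol D init x y → w ∈ L) → I (E :: lft x ++ P :: rgt y ++ [E, z false]) w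
  | d (x b1 b2 y bz w) : (b1 = false → b2 = false → bz = false) →
      ((bif !b1 && b2 then x.tail else x) = y → w ∈ L) → I (sh x b1 b2 y bz) w
  | e (ns w) : S0 ∉ ns → S ∉ ns → w ∈ L → I ns w

def Av (F : Finset (List NT)) (u : List NT) : Prop := ∀ f ∈ F, ¬ f <:+: u

lemma Av.one {F u} (h : Av F u) (n : NT) (hn : [n] ∈ F) : n ∉ u := fun hu =>
  h _ hn ((List.singleton_infix_iff _ _).mpr hu)

lemma Av.two {F u} (h : Av F u) (a b : NT) (hn : [a, b] ∈ F) (p q : List NT)
    (hu : u = p ++ a :: b :: q) : False := h _ hn ⟨p, q, by simp [hu]⟩

variable {D init pre post ψ L}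

lemma inv_left {u v : List NT} {A x F w} (hr : QL (A, x, F)) (hF : Av F u)
    (h : I D init post ψ L (u ++ A :: v) w) : I D init post ψ L (u ++ x ++ v) w := by
  generalize hn : u ++ A :: v = ns at h
  have hA : A ∈ ns := by simp [← hn]
  generalize hq : (A, x, F) = q at hr
  cases h with
  | a => cases hr <;> cases hq <;> simp at hA
  | b => cases hr <;> cases hq <;> simp at hA
  | c x0 y w H =>
    exfalso
    have hn' : u ++ A :: v = (E :: lft x0) ++ P :: (rgt y ++ [E, z false]) := by simpa using hn
    cases hr <;> cases hq
    · exact hF.one P (by simp) (mem_left hn' (by simp) (by simp))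
    · exact hF.one P (by simp) (mem_left hn' (by simp) (by simp))
    · simp at hA
    · exact hF.one P (by simp) (mem_left hn' (by simp) (by simp))
  | e ns w h1 h2 h3 =>
    subst hn
    refine .e _ _ ?_ ?_ h3 <;> cases hr <;> cases hq <;> simp_all
  | d x0 b1 b2 y bz w H1 H2 =>
    cases hr with
    | l1 k =>
      cases hq
      cases y with
      | nil => cases b1 <;> cases b2 <;> simp [sh, opt] at hA
      | cons k' y =>
        have hn' : u ++ r k :: v =
            (E :: lft x0 ++ opt b1 lm ++ c :: opt b2 rm) ++ r k' :: (rgt y ++ [E, z bz]) := by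
          simpa [sh] using hn
        have hu : ∀ n ∈ u, ¬ ∃ k, n = r k := by
          rintro n hn ⟨k, rfl⟩
          exact hF.one _ (by cases k <;> simp) hn
        obtain ⟨rfl, h2, rfl⟩ := first_class (fun n => ∃ k, n = r k) hu
          (by rintro n hn ⟨k, rfl⟩; cases b1 <;> cases b2 <;> simp [opt] at hn)
          ⟨_, rfl⟩ ⟨_, rfl⟩ hn'
        obtain rfl := NT.r.inj h2
        obtain rfl : b2 = false := by
          cases b2
          · rfl
          · exact absurd (by simp [opt]) (hF.one rm (by simp))
        obtain rfl : b1 = false := by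
          cases b1
          · rfl
          · exact (hF.two lm c (by simp) (E :: lft x0) [] (by simp [opt])).elim
        cases x0 with
        | nil => exact (hF.two E c (by simp) [] [] (by simp [opt])).elim
        | cons k'' x1 =>
          obtain rfl : k'' = k := by
            by_contra hne
            obtain rfl : k'' = !k := by cases k <;> cases k'' <;> simp_all
            exact hF.two (l (!k)) c (by simp) (E :: lft x1) [] (by simp [opt])
          have := I.d (D := D) (init := init) (post := post) (ψ := ψ) (L := L)
            (k'' :: x1) false true y bz w (by simp) (by simpa using H2)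
          simpa [sh, opt] using this
    | l2 =>
      cases hq
      obtain rfl : bz = false := by cases b1 <;> cases b2 <;> simpa [sh, opt] using hA
      have hn' : u ++ z false :: v =
          (E :: lft x0 ++ opt b1 lm ++ c :: opt b2 rm ++ rgt y ++ [E]) ++ z false :: [] := by
        simpa [sh] using hn
      obtain ⟨rfl, rfl⟩ := split_unique (by cases b1 <;> cases b2 <;> simp [opt]) (by simp) hn'
      obtain rfl : b2 = true := by
        cases b2
        · exfalso
          cases y with
          | nil => exact hF.two c E (by simp) (E :: lft x0 ++ opt b1 lm) [] (by simp [opt])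
          | cons k y =>
            exact hF.two c (r k) (by cases k <;> simp) (E :: lft x0 ++ opt b1 lm) (rgt y ++ [E])
              (by simp [opt])
        · rfl
      have := I.d (D := D) (init := init) (post := post) (ψ := ψ) (L := L)
        x0 b1 true y true w (by simp) H2
      simpa [sh, opt] using this
    | l4 =>
      cases hq
      obtain rfl : b2 = true := by cases b1 <;> cases b2 <;> simp [sh, opt] at hA ⊢
      have hn' : u ++ rm :: v =
          (E :: lft x0 ++ opt b1 lm ++ [c]) ++ rm :: (rgt y ++ [E, z bz]) := by
        simpa [sh, opt] using hn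
      obtain ⟨rfl, rfl⟩ := split_unique (by cases b1 <;> simp [opt]) (by simp) hn'
      obtain rfl : b1 = true := by
        cases b1
        · exfalso
          cases x0 with
          | nil => exact hF.two E c (by simp) [] [] (by simp [opt])
          | cons k x1 =>
            exact hF.two (l k) c (by cases k <;> simp) (E :: lft x1) [] (by simp [opt])
        · rfl
      have := I.d (D := D) (init := init) (post := post) (ψ := ψ) (L := L)
        x0 true false y bz w (by simp) (by simpa using H2)
      simpa [sh, opt] using this
    | l7 =>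
      cases hq
      obtain rfl : bz = false := by cases b1 <;> cases b2 <;> simpa [sh, opt] using hA
      have hn' : u ++ z false :: v =
          (E :: lft x0 ++ opt b1 lm ++ c :: opt b2 rm ++ rgt y ++ [E]) ++ z false :: [] := by
        simpa [sh] using hn
      obtain ⟨rfl, rfl⟩ := split_unique (by cases b1 <;> cases b2 <;> simp [opt]) (by simp) hn'
      obtain rfl : x0 = [] := by
        cases x0 with
        | nil => rfl
        | cons k x1 => exact absurd (by simp) (hF.one (l k) (by cases k <;> simp))
      obtain rfl : y = [] := by
        cases y with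
        | nil => rfl
        | cons k x1 => exact absurd (by simp) (hF.one (r k) (by cases k <;> simp))
      refine .e _ _ ?_ ?_ (H2 (by cases b1 <;> cases b2 <;> rfl)) <;>
        cases b1 <;> cases b2 <;> simp [opt]

lemma inv_right {u v : List NT} {A x F w} (hr : QR (A, x, F)) (hF : Av F v)
    (h : I D init post ψ L (u ++ A :: v) w) : I D init post ψ L (u ++ x ++ v) w := by
  generalize hn : u ++ A :: v = ns at h
  have hA : A ∈ ns := by simp [← hn]
  generalize hq : (A, x, F) = q at hr
  cases h with
  | a => cases hr <;> cases hq <;> simp at hA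
  | b w =>
    exfalso
    have hn' : u ++ A :: v = (E :: lft (w.flatMap ψ ++ post)) ++ S :: [] := by simpa using hn
    cases hr <;> cases hq
    · exact hF.one S (by simp) (mem_right hn' (by simp) (by simp))
    · simp at hA
    · exact hF.one S (by simp) (mem_right hn' (by simp) (by simp))
    · simp at hA
  | c x0 y w H =>
    exfalso
    have hn' : u ++ A :: v = (E :: lft x0 ++ P :: rgt y ++ [E]) ++ z false :: [] := by
      simpa using hn
    cases hr <;> cases hq
    · exact hF.one _ (by simp) (mem_right hn' (by simp) (by simp))
    · simp at hA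
    · exact hF.one _ (by simp) (mem_right hn' (by simp) (by simp))
    · simp at hA
  | e ns w h1 h2 h3 =>
    subst hn
    refine .e _ _ ?_ ?_ h3 <;> cases hr <;> cases hq <;> simp_all
  | d x0 b1 b2 y bz w H1 H2 =>
    have hz : u ++ A :: v =
        (E :: lft x0 ++ opt b1 lm ++ c :: opt b2 rm ++ rgt y ++ [E]) ++ z bz :: [] := by
      simpa [sh] using hn
    cases hr with
    | r3 k =>
      cases hq
      cases x0 with
      | nil => cases b1 <;> cases b2 <;> simp [sh, opt] at hA
      | cons k' x1 =>
        have hn' : u ++ l k :: v =
            (E :: lft x1) ++ l k' :: (opt b1 lm ++ c :: opt b2 rm ++ rgt y ++ [E, z bz]) := by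
          simpa [sh] using hn
        have hv : ∀ n ∈ v, ¬ ∃ k, n = l k := by
          rintro n hn ⟨k, rfl⟩
          exact hF.one _ (by cases k <;> simp) hn
        obtain ⟨rfl, h2, rfl⟩ := last_class (fun n => ∃ k, n = l k) hv
          (by rintro n hn ⟨k, rfl⟩; cases b1 <;> cases b2 <;> simp [opt] at hn)
          ⟨_, rfl⟩ ⟨_, rfl⟩ hn'
        obtain rfl : b1 = false := by
          cases b1
          · rfl
          · exact absurd (by simp [opt]) (hF.one lm (by simp))
        obtain rfl : bz = true := by
          cases bz
          · exact absurd (by simp [opt]) (hF.one (z false) (by simp))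
          · rfl
        obtain rfl : b2 = true := by cases b2 <;> simp_all
        have := I.d (D := D) (init := init) (post := post) (ψ := ψ) (L := L)
          x1 true true y true w (by simp) (by simpa using H2)
        simpa [sh, opt] using this
    | r5 =>
      cases hq
      obtain rfl : b1 = true := by cases b1 <;> cases b2 <;> simp [sh, opt] at hA ⊢
      have hn' : u ++ lm :: v =
          (E :: lft x0) ++ lm :: (c :: opt b2 rm ++ rgt y ++ [E, z bz]) := by
        simpa [sh, opt] using hn
      obtain ⟨rfl, rfl⟩ := split_unique (by simp) (by cases b2 <;> simp [opt]) hn'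
      obtain rfl : b2 = false := by
        cases b2
        · rfl
        · exact absurd (by simp [opt]) (hF.one rm (by simp))
      obtain rfl : bz = false := by
        cases bz
        · rfl
        · exact absurd (by simp [opt]) (hF.one (z true) (by simp))
      have := I.d (D := D) (init := init) (post := post) (ψ := ψ) (L := L)
        x0 false false y false w (by simp) (by simpa using H2)
      simpa [sh, opt] using this
    | r8 =>
      cases hq
      exact absurd (mem_right hz (by simp) (by simp)) (hF.one _ (by cases bz <;> simp))
    | r9 =>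
      cases hq
      exact absurd (mem_right hz (by simp) (by simp)) (hF.one _ (by cases bz <;> simp))

lemma sol_step {u v x y : List Bool} (h : (u, v) ∈ D) (H : Sol D init (u ++ x) (v ++ y)) :
    Sol D init x y := by
  obtain ⟨s, hs, he⟩ := H
  refine ⟨s ++ [(u, v)], ?_, by simpa using he⟩
  intro c hc
  rcases List.mem_append.mp hc with hc | hc
  · exact hs c hc
  · rw [List.mem_singleton.mp hc]; exact h

lemma inv_free (hL : ∀ w, Sol D init (pre ++ w.flatMap ψ ++ post) [] → w ∈ L)
    {u v : List NT} {A x w} (hr : QF D init pre post (A, x))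
    (h : I D init post ψ L (u ++ A :: v) w) : I D init post ψ L (u ++ x ++ v) w := by
  generalize hn : u ++ A :: v = ns at h
  have hA : A ∈ ns := by simp [← hn]
  generalize hq : (A, x) = q at hr
  cases h with
  | a =>
    cases hr <;> cases hq <;> simp at hA
    obtain ⟨rfl, rfl⟩ := split_unique (p' := []) (q' := []) (by simp) (by simp) hn
    have := I.b (D := D) (init := init) (post := post) (ψ := ψ) (L := L) []
    simpa using this
  | b w =>
    cases hr <;> cases hq <;> simp at hA
    have hn' : u ++ S :: v = (E :: lft (w.flatMap ψ ++ post)) ++ S :: [] := by simpa using hn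
    obtain ⟨rfl, rfl⟩ := split_unique (by simp) (by simp) hn'
    have := I.c (D := D) (init := init) (post := post) (ψ := ψ) (L := L) _ _ w (hL w)
    simpa using this
  | c x0 y w H =>
    have hn' : u ++ A :: v = (E :: lft x0) ++ P :: (rgt y ++ [E, z false]) := by simpa using hn
    cases hr with
    | s0 => cases hq; simp at hA
    | s => cases hq; simp at hA
    | zz => cases hq; simp at hA
    | @p u0 v0 h =>
      cases hq
      obtain ⟨rfl, rfl⟩ := split_unique (by simp) (by simp) hn'
      have := I.c (D := D) (init := init) (post := post) (ψ := ψ) (L := L) (u0 ++ x0) (v0 ++ y) w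
        (fun hs => H (sol_step h hs))
      simpa using this
    | pc =>
      cases hq
      obtain ⟨rfl, rfl⟩ := split_unique (by simp) (by simp) hn'
      have := I.d (D := D) (init := init) (post := post) (ψ := ψ) (L := L)
        x0 false false (init ++ y) false w (by simp)
        (fun hs => H ⟨[], by simp, by simpa using hs⟩)
      simpa [sh, opt] using this
  | e ns w h1 h2 h3 =>
    subst hn
    refine .e _ _ ?_ ?_ h3 <;> cases hr <;> cases hq <;> simp_all
  | d x0 b1 b2 y bz w H1 H2 =>
    cases hr with
    | s0 => cases hq; cases b1 <;> cases b2 <;> simp [sh, opt] at hA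
    | s => cases hq; cases b1 <;> cases b2 <;> simp [sh, opt] at hA
    | p => cases hq; cases b1 <;> cases b2 <;> simp [sh, opt] at hA
    | pc => cases hq; cases b1 <;> cases b2 <;> simp [sh, opt] at hA
    | zz =>
      cases hq
      obtain rfl : bz = true := by cases b1 <;> cases b2 <;> simpa [sh, opt] using hA
      have hn' : u ++ z true :: v =
          (E :: lft x0 ++ opt b1 lm ++ c :: opt b2 rm ++ rgt y ++ [E]) ++ z true :: [] := by
        simpa [sh] using hn
      obtain ⟨rfl, rfl⟩ := split_unique (by cases b1 <;> cases b2 <;> simp [opt]) (by simp) hn'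
      have := I.d (D := D) (init := init) (post := post) (ψ := ψ) (L := L)
        x0 b1 b2 y false w (by simp) H2
      simpa [sh, opt] using this

lemma inv_term {u v : List NT} {w} (a : T) (h : I D init post ψ L (u ++ S :: v) w) :
    v = [] ∧ I D init post ψ L (u ++ (lft (ψ a) ++ [S])) (a :: w) := by
  generalize hn : u ++ S :: v = ns at h
  have hA : S ∈ ns := by simp [← hn]
  cases h with
  | a => simp at hA
  | b w =>
    have hn' : u ++ S :: v = (E :: lft (w.flatMap ψ ++ post)) ++ S :: [] := by simpa using hn
    obtain ⟨rfl, rfl⟩ := split_unique (by simp) (by simp) hn'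
    have := I.b (D := D) (init := init) (post := post) (ψ := ψ) (L := L) (a :: w)
    exact ⟨rfl, by simpa using this⟩
  | c x0 y w H => simp at hA
  | e ns w h1 h2 h3 => exact absurd hA h2
  | d x0 b1 b2 y bz w H1 H2 => cases b1 <;> cases b2 <;> simp [sh, opt] at hA

lemma inv_nil {w} (h : I D init post ψ L [] w) : w ∈ L := by
  generalize hn : ([] : List NT) = ns at h
  cases h with
  | a => simp at hn
  | b => simp at hn
  | c => simp at hn
  | d => simp [sh] at hn
  | e _ _ _ _ h => exact h

end Pool.Agent.Lib.MP_fc15dd_lc
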